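import Pool.Agent.Y951.SQ.StmWA

/-!
# Open subgroups are stabilizers
-/

set_option autoImplicit false

namespace Pool.Agent.Y951.SQ

open Pool.Agent.Y691.ST

theorem t_ALPHA : S_ALPHA := by
  intro W hW
  let Wc : ClosedSubgroup GalQ := ⟨W, W.isClosed_of_isOpen hW⟩
  let E : IntermediateField ℚ Qbar := IntermediateField.fixedField W
  have hE : E.fixingSubgroup = W := InfiniteGalois.fixingSubgroup_fixedField Wc
  have hfin : FiniteDimensional ℚ E := by
    rw [← InfiniteGalois.isOpen_iff_finite, hE]
    exact hW
  obtain ⟨α, hα⟩ := Field.exists_primitive_element ℚ E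
  refine ⟨(α : Qbar), fun g => ?_⟩
  have hE2 : IntermediateField.adjoin ℚ {(α : Qbar)} = E := by
    have h1 := IntermediateField.lift_adjoin_simple (F := ℚ) (K := E) α
    rw [← h1]
    refine Eq.trans (congrArg IntermediateField.lift ?_) (IntermediateField.lift_top ℚ E)
    exact hα
  constructor
  · intro hg
    rw [← hE, IntermediateField.mem_fixingSubgroup_iff] at hg
    exact hg α α.2
  · intro hg
    rw [← hE, ← hE2, IntermediateField.mem_fixingSubgroup_iff]
    intro x hx
    have h2 : IntermediateField.adjoin ℚ {(α : Qbar)} ≤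
        IntermediateField.fixedField (Subgroup.zpowers g) := by
      rw [IntermediateField.adjoin_simple_le_iff]
      intro k
      obtain ⟨k, hk⟩ := k
      obtain ⟨j, rfl⟩ := Subgroup.mem_zpowers_iff.1 hk
      have h3 : g ∈ MulAction.stabilizer GalQ (α : Qbar) := hg
      exact (MulAction.stabilizer GalQ (α : Qbar)).zpow_mem h3 j
    have h4 := h2 hx
    exact h4 ⟨g, Subgroup.mem_zpowers g⟩
end Pool.Agent.Y951.SQ
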