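import Pool.Agent.Y951.SQ.FinP
import Pool.Agent.Y427.SQ.POLY
import Pool.Agent.Y390.SQ.WAF
import Pool.Agent.Y514.SQ.PROF

/-!
# Characters of totally complex fields and the square of the defect
-/

set_option autoImplicit false

namespace Pool.Agent.Y951.SQ

open Pool.Agent.Y144.DL Pool.Agent.Y691.ST Pool.Agent.Y951.SE

/-- **The square is trivial.** -/
theorem core (hA : S_ALPHA) (hKL : S_KLEIN) {d : (GalQ → ℂ) → ℂˣ}
    {D : (U : Subgroup GalQ) → (U → ℂ) → ℂˣ} (hd : IsDef' d)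
    (hind : ∀ (U : Subgroup GalQ) (θ : U → ℂ), IsOpen (U : Set GalQ) → IsArtin θ →
      D U θ = d (indC U θ)) (h : HoldsLinear TotallyComplex D) {U : Subgroup GalQ}
    (hU : IsOpen (U : Set GalQ)) {θ : U → ℂ} (hθ : IsArtin θ) : D U θ ^ 2 = 1 := by
  obtain ⟨c, φ, hφ, hconj⟩ := exists_conjugation
  obtain ⟨e₀, h1, h2, h3⟩ := exists_sign hφ
  have hz := fun g (h : g * c = c * g) => centralizer hφ h
  have hgood : ∀ (U : Subgroup GalQ) (χ : U →* ℂˣ), IsOpenLinear U χ → (∀ g, g * c * g⁻¹ ∉ U) →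
      d (indF U χ) = 1 := by
    intro V χ hχ hV
    obtain ⟨h4, h5⟩ := isOpenLinear_iff.mp hχ
    rw [← indC_lin, ← hind V _ h4 (isArtin_lin h5)]
    refine h V χ h4 h5 fun c' hc' => ?_
    obtain ⟨g, rfl⟩ := hconj c' hc'
    exact hV g
  have hsq : ∀ (U : Subgroup GalQ) (χ : U →* ℂˣ), IsOpenLinear U χ → (∃ j : ℕ, χ ^ 2 ^ j = 1) →
      d (indF U χ) ^ 2 = 1 :=
    Pool.Agent.Y514.SQ.t_PROF (t_FIN hKL) GalQ c (conj_sq hφ) d hd hgood e₀ h1 h2 h3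
      (fun W hW T hT => Pool.Agent.Y390.SQ.t_WAF hA Pool.Agent.Y427.SQ.t_POLY c φ hφ W hW T hT)
  rw [hind U θ hU hθ]
  refine prof_eq_one' (d := fun f => d f ^ 2) hz (conj_sq hφ) (conj_ne_one hφ) ⟨?_, ?_⟩ ?_ ?_
    (isArtin_ind hU hθ)
  · intro θ θ' h4 h5
    show d (θ + θ') ^ 2 = d θ ^ 2 * d θ' ^ 2
    rw [hd.add θ θ' h4 h5, mul_pow]
  · intro V hV
    show d (indF V 1) ^ 2 = 1
    rw [hd.one V hV, one_pow]
  · intro V χ hχ hV
    show d (indF V χ) ^ 2 = 1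
    rw [hgood V χ hχ hV, one_pow]
  · intro V χ hχ hj _
    exact hsq V χ hχ hj

/-- the situation for the `m`-th power -/
lemma isDef'_pow {d : (GalQ → ℂ) → ℂˣ} (hd : IsDef' d) (m : ℕ) : IsDef' (fun f => d f ^ m) := by
  refine ⟨fun θ θ' h4 h5 => ?_, fun V hV => ?_⟩
  · show d (θ + θ') ^ m = d θ ^ m * d θ' ^ m
    rw [hd.add θ θ' h4 h5, mul_pow]
  · show d (indF V 1) ^ m = 1
    rw [hd.one V hV, one_pow]

/-- both parts of the theorem -/
theorem core' (hA : S_ALPHA) (hKL : S_KLEIN) {d : (GalQ → ℂ) → ℂˣ}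
    {D : (U : Subgroup GalQ) → (U → ℂ) → ℂˣ} (hd : IsDef' d)
    (hind : ∀ (U : Subgroup GalQ) (θ : U → ℂ), IsOpen (U : Set GalQ) → IsArtin θ →
      D U θ = d (indC U θ)) {m : ℕ} (h : HoldsLinear TotallyComplex (fun U θ => D U θ ^ m)) :
    (∀ (U : Subgroup GalQ) (θ : U → ℂ), IsOpen (U : Set GalQ) → IsArtin θ →
      D U θ ^ (2 * m) = 1) ∧
    ∀ (U : Subgroup GalQ) (n : ℕ) (ρ : U →* Matrix (Fin n) (Fin n) ℂ), IsOpenRep ρ →
      NoRealCyclic ρ 0 ∨ NoElement ρ 0 → D U (character ρ) ^ m = 1 := by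
  have hind' : ∀ (U : Subgroup GalQ) (θ : U → ℂ), IsOpen (U : Set GalQ) → IsArtin θ →
      D U θ ^ m = d (indC U θ) ^ m := by
    intro U θ hU hθ
    rw [hind U θ hU hθ]
  refine ⟨fun U θ hU hθ => ?_, fun U n ρ hρ hk => ?_⟩
  · have h1 := core (D := fun U θ => D U θ ^ m) hA hKL (isDef'_pow hd m) hind' h hU hθ
    rw [mul_comm, pow_mul]
    exact h1
  · have h1 := exp_bound' (D := fun U θ => D U θ ^ m) (isDef'_pow hd m) hind' h ρ hρ hk
    simpa using h1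

end Pool.Agent.Y951.SQ
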