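import Pool.Agent.Y951.SE.Defs

/-!
# Stark's conjecture up to sign: definitions
-/

set_option autoImplicit false

namespace Pool.Agent.Y951.SQ

open Pool.Agent.Y691.ST Pool.Agent.Y951.SE

section general

variable {G : Type} [Group G] [TopologicalSpace G]

/-- The `k`-th power of `D` is trivial on all Artin characters of all open subgroups. -/
def HoldsPower (D : (U : Subgroup G) → (U → ℂ) → ℂˣ) (k : ℕ) : Prop :=
  ∀ (U : Subgroup G) (θ : U → ℂ), IsOpen (U : Set G) → IsArtin θ → D U θ ^ k = 1

/-- The `m`-th power of `D` is trivial on the linear characters (with open kernel) of the open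
subgroups whose order is not divisible by `4`. -/
def HoldsNotFour (D : (U : Subgroup G) → (U → ℂ) → ℂˣ) (m : ℕ) : Prop :=
  ∀ (U : Subgroup G) (χ : U →* ℂˣ), IsOpen (U : Set G) → IsOpen {u : U | χ u = 1} →
    ¬ 4 ∣ orderOf χ → D U (lin χ) ^ m = 1

end general

/-- The `m`-th power of `D` is trivial on the characters of the faithful representations `ρ` of
`Gal(L / K)` for the finite Galois extensions `L / K` of number fields such that there is no cyclic
extension `K₂ / K₁` of degree `4` with `K ⊆ K₁ ⊆ K₂ ⊆ L` and with a real place of `K₁` (for example if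
`Gal(L / K)` has no element of order divisible by `4`). -/
def HoldsNoQuartic (D : (U : Subgroup GalQ) → (U → ℂ) → ℂˣ) (m : ℕ) : Prop :=
  ∀ (U : Subgroup GalQ) (n : ℕ) (ρ : U →* Matrix (Fin n) (Fin n) ℂ), IsOpenRep ρ →
    NoRealCyclic ρ 0 → D U (character ρ) ^ m = 1

end Pool.Agent.Y951.SQ
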