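import Pool.Agent.Y951.SQ.Stm

/-!
# The finite theorem
-/

set_option autoImplicit false

namespace Pool.Agent.Y951.SQ

open Pool.Agent.Y144.DL Pool.Agent.Y691.ST Pool.Agent.Y951.SE

variable {Q : Type} [Group Q] [Finite Q] {A : Type} [CommGroup A]

/-- the situation of the finite theorem -/
structure Ctx (Y : (Q → ℂ) → A) (S : Set Q) (ε₀ : Q →* ℂˣ) : Prop where
  add : ∀ θ θ', IsChar θ → IsChar θ' → Y (θ + θ') = Y θ * Y θ'
  quad : ∀ (K : Subgroup Q) (χ : K →* ℂˣ), χ ^ 2 = 1 → Y (ind K χ) = 1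
  good : ∀ (K : Subgroup Q) (χ : K →* ℂˣ), (∀ s ∈ S, s ∉ K) → Y (ind K χ) = 1
  sq : ∀ s ∈ S, s * s = 1
  conj : ∀ s ∈ S, ∀ g, g * s * g⁻¹ ∈ S
  eps : ∀ g, ε₀ g ^ 2 = 1
  epsS : ∀ s ∈ S, ε₀ s = -1

variable {Y : (Q → ℂ) → A} {S : Set Q} {ε₀ : Q →* ℂˣ}

lemma Ctx.split (h : Ctx Y S ε₀) {K : Subgroup Q} {η : K →* ℂˣ} (hη : η ^ 2 = 1) {x₀ : K}
    (hx : η x₀ ≠ 1) (χ : K →* ℂˣ) :
    Y (ind (kerS K η) (resS K η χ)) = Y (ind K χ) * Y (ind K (χ * η)) := by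
  rw [ind_kerS K η χ hη hx, h.add _ _ (isChar_ind K _) (isChar_ind K _)]

lemma Ctx.neg (h : Ctx Y S ε₀) {K : Subgroup Q} {δ : K →* ℂˣ} (hδ : δ ^ 2 = 1)
    (hδS : ∀ s ∈ S, ∀ hs : s ∈ K, δ ⟨s, hs⟩ = -1) (ψ : K →* ℂˣ) :
    Y (ind K ψ) * Y (ind K (ψ * δ)) = 1 := by
  by_cases hbad : ∃ s ∈ S, s ∈ K
  · obtain ⟨s, hs, hsK⟩ := hbad
    have h1 : δ ⟨s, hsK⟩ ≠ 1 := by
      rw [hδS s hs hsK]
      exact neg_one_ne
    rw [← h.split hδ h1]
    refine h.good _ _ fun t ht htK => ?_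
    obtain ⟨h3, h4⟩ := mem_kerS.1 htK
    rw [hδS t ht h3] at h4
    exact neg_one_ne h4
  · push Not at hbad
    rw [h.good K _ hbad, h.good K _ hbad, one_mul]

lemma Ctx.pos (h : Ctx Y S ε₀) {K : Subgroup Q} {δ : K →* ℂˣ} (hδ : δ ^ 2 = 1)
    (hδS : ∀ s ∈ S, ∀ hs : s ∈ K, δ ⟨s, hs⟩ = 1) (ψ : K →* ℂˣ) :
    Y (ind K (ψ * δ)) = Y (ind K ψ) := by
  set ε : K →* ℂˣ := ε₀.comp K.subtype with hεdef
  have hε2 : ε ^ 2 = 1 := by
    ext x
    exact congrArg Units.val (h.eps (x : Q))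
  have hεt : ∀ t ∈ S, ∀ ht : t ∈ K, ε ⟨t, ht⟩ = -1 := fun t ht _ => h.epsS t ht
  have h1 := h.neg hε2 hεt (ψ * δ)
  have hηε : (δ * ε) ^ 2 = 1 := by
    refine MonoidHom.ext fun x => ?_
    have h6 : δ x ^ 2 = 1 := congrArg (fun f : K →* ℂˣ => f x) hδ
    have h7 : ε x ^ 2 = 1 := congrArg (fun f : K →* ℂˣ => f x) hε2
    rw [MonoidHom.pow_apply, MonoidHom.mul_apply, mul_pow, h6, h7, one_mul]
    rfl
  have h2 := h.neg hηε (by
    intro t ht htK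
    rw [MonoidHom.mul_apply, hδS t ht htK, hεt t ht htK, one_mul]) ψ
  have hass : ψ * δ * ε = ψ * (δ * ε) := by
    refine MonoidHom.ext fun x => ?_
    rw [MonoidHom.mul_apply, MonoidHom.mul_apply, MonoidHom.mul_apply, MonoidHom.mul_apply,
      mul_assoc]
  rw [hass, ← h2] at h1
  exact mul_right_cancel h1

/-- values of an extension by zero of a quadratic character -/
lemma ext_cases {K : Subgroup Q} {l : K →* ℂˣ} (hl : l ^ 2 = 1) {x : Q} (hx : x ∈ K) :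
    ext K l x = 1 ∨ ext K l x = -1 := by
  rw [ext_mem K l hx]
  have h1 : l ⟨x, hx⟩ ^ 2 = 1 := congrArg (fun f : K →* ℂˣ => f ⟨x, hx⟩) hl
  rcases unit_cases h1 with h2 | h2
  · left
    rw [h2, Units.val_one]
  · right
    rw [h2]
    simp

lemma unit_neg_iff {K : Subgroup Q} {l : K →* ℂˣ} {x : Q} (hx : x ∈ K) :
    l ⟨x, hx⟩ = -1 ↔ ext K l x = -1 := by
  rw [ext_mem K l hx]
  constructor
  · intro h
    rw [h]
    simp
  · intro h
    apply Units.ext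
    rw [h]
    simp

lemma unit_one_iff {K : Subgroup Q} {l : K →* ℂˣ} {x : Q} (hx : x ∈ K) :
    l ⟨x, hx⟩ = 1 ↔ ext K l x = 1 := by
  rw [ext_mem K l hx]
  constructor
  · intro h
    rw [h]
    simp
  · intro h
    apply Units.ext
    rw [h]
    simp

lemma c_neg_ne : (-1 : ℂ) ≠ 1 := by norm_num

theorem chain (hKL : S_KLEIN) (h : Ctx Y S ε₀) : ∀ (n : ℕ) (K : Subgroup Q) (ψ : K →* ℂˣ),
    ψ ^ 2 ^ (n + 1) = 1 → (n = 0 ∨ ψ ^ 2 ^ n ≠ 1) → ∀ (W : Subgroup Q) (hW : W ≤ K),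
    (∀ x (hx : x ∈ K), x ∈ W ↔ ψ ⟨x, hx⟩ ^ 2 = 1) → ∀ l : W →* ℂˣ, l ^ 2 = 1 →
    (∀ s ∈ S, s ∈ K → ∀ u ∈ K, ∀ u' ∈ K, ext W l (u * s * u⁻¹) = -1 →
      ext W l (u' * s * u'⁻¹) = -1 → u' * u⁻¹ ∈ W) →
    ∃ ν : K →* ℂˣ, ν ^ 2 = 1 ∧
      (∀ s ∈ S, ∀ hs : s ∈ K, ν ⟨s, hs⟩ = -1 ↔ ∃ u ∈ K, ext W l (u * s * u⁻¹) = -1) ∧
      Y (ind W (ψ.comp (Subgroup.inclusion hW) * l)) =
        Y (ind K ψ) ^ (2 ^ n - 1) * Y (ind K (ψ * ν)) := by
  intro n
  induction n with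
  | zero =>
    intro K ψ hψ _ W hW hWm l hl _
    have hWK : W = K := by
      refine le_antisymm hW fun x hx => (hWm x hx).2 ?_
      have h1 := congrArg (fun f : K →* ℂˣ => f ⟨x, hx⟩) hψ
      simpa using h1
    subst hWK
    refine ⟨l, hl, ?_, ?_⟩
    · intro s hs hsK
      rw [unit_neg_iff]
      have h1 : ∀ u ∈ W, ext W l (u * s * u⁻¹) = ext W l s := by
        intro u hu
        have h2 := ext_conj W l s (W.inv_mem hu)
        rwa [inv_inv] at h2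
      constructor
      · intro h2
        exact ⟨1, W.one_mem, by rw [h1 1 W.one_mem, h2]⟩
      · rintro ⟨u, hu, h2⟩
        rwa [h1 u hu] at h2
    · have h1 : ψ.comp (Subgroup.inclusion hW) = ψ := MonoidHom.ext fun x => rfl
      rw [h1]
      simp
  | succ n ih =>
    intro K ψ hψ hne W hW hWm l hl hsig
    have hne' : ψ ^ 2 ^ (n + 1) ≠ 1 := hne.resolve_left (Nat.succ_ne_zero n)
    set η : K →* ℂˣ := ψ ^ 2 ^ (n + 1) with hηdef
    have hη2 : η ^ 2 = 1 := by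
      rw [hηdef, ← pow_mul, ← pow_succ]
      exact hψ
    obtain ⟨x₀, hx₀⟩ : ∃ x₀ : K, η x₀ ≠ 1 := by
      by_contra hcon
      push Not at hcon
      exact hne' (MonoidHom.ext hcon)
    have hηval : ∀ x : K, η x = 1 ∨ η x = -1 := fun x =>
      unit_cases (congrArg (fun f : K →* ℂˣ => f x) hη2)
    have hηS : ∀ s ∈ S, ∀ hs : s ∈ K, η ⟨s, hs⟩ = 1 := by
      intro s hs hsK
      have h1 : (⟨s, hsK⟩ : K) ^ 2 = 1 := Subtype.ext (by
        rw [Subgroup.coe_pow, pow_two]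
        exact h.sq s hs)
      rw [hηdef, MonoidHom.pow_apply, pow_succ' 2 n, pow_mul, ← map_pow, h1, map_one, one_pow]
    set V : Subgroup Q := kerS K η with hV
    have hVK : V ≤ K := kerS_le K η
    have hSV : ∀ s ∈ S, s ∈ K → s ∈ V := fun s hs hsK => mem_kerS.2 ⟨hsK, hηS s hs hsK⟩
    have hWV : W ≤ V := by
      intro x hx
      refine mem_kerS.2 ⟨hW hx, ?_⟩
      rw [hηdef, MonoidHom.pow_apply, pow_succ' 2 n, pow_mul, (hWm x (hW hx)).1 hx, one_pow]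
    set ψV : V →* ℂˣ := resS K η ψ with hψV
    have hψVx : ∀ (x : Q) (hx : x ∈ V), ψV ⟨x, hx⟩ = ψ ⟨x, hVK hx⟩ := fun x hx => rfl
    have h1 : ψV ^ 2 ^ (n + 1) = 1 := by
      refine MonoidHom.ext fun x => ?_
      obtain ⟨h2, h3⟩ := mem_kerS.1 x.2
      exact h3
    have h2 : ψV ^ 2 ^ n ≠ 1 := by
      intro h3
      have h4 : ((x₀ * x₀ : K) : Q) ∈ V := by
        refine mem_kerS.2 ⟨(x₀ * x₀ : K).2, ?_⟩
        show η (x₀ * x₀) = 1
        rw [map_mul]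
        rcases hηval x₀ with h5 | h5
        · rw [h5, one_mul]
        · rw [h5]
          simp
      have h5 := congrArg (fun f : V →* ℂˣ => f ⟨_, h4⟩) h3
      have h6 : ψ (x₀ * x₀) ^ 2 ^ n = 1 := h5
      apply hx₀
      rw [hηdef, MonoidHom.pow_apply, pow_succ' 2 n, pow_mul, pow_two, ← map_mul]
      exact h6
    obtain ⟨ν', hν'2, hν'S, hν'Y⟩ := ih V ψV h1 (Or.inr h2) W hWV (fun x hx => by
      rw [hψVx]
      exact hWm x (hVK hx)) l hl (fun s hs hsV u hu u' hu' =>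
        hsig s hs (hVK hsV) u (hVK hu) u' (hVK hu'))
    have h3 : ψV.comp (Subgroup.inclusion hWV) = ψ.comp (Subgroup.inclusion hW) :=
      MonoidHom.ext fun x => rfl
    rw [h3] at hν'Y
    have hYV : Y (ind V ψV) = Y (ind K ψ) ^ 2 := by
      rw [hψV, h.split hη2 hx₀, h.pos hη2 hηS, pow_two]
    -- the norm
    suffices hs : ∃ ν : K →* ℂˣ, ν ^ 2 = 1 ∧
        (∀ s ∈ S, ∀ hs : s ∈ K, ν ⟨s, hs⟩ = -1 ↔ ∃ u ∈ K, ext W l (u * s * u⁻¹) = -1) ∧
        Y (ind V (ψV * ν')) = Y (ind K ψ) * Y (ind K (ψ * ν)) by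
      obtain ⟨ν, hν1, hν2, hν3⟩ := hs
      refine ⟨ν, hν1, hν2, ?_⟩
      rw [hν'Y, hν3, hYV, ← pow_mul, ← mul_assoc, ← pow_succ]
      congr 2
      have : 1 ≤ 2 ^ n := Nat.one_le_two_pow
      rw [pow_succ]
      omega
    obtain ⟨t, ht⟩ := x₀
    have hnot : ∀ s ∈ S, s ∈ K → ¬ (ext V ν' s = -1 ∧ ext V ν' (t * s * t⁻¹) = -1) := by
      rintro s hs hsK ⟨ha, hb⟩
      obtain ⟨u, hu, hu1⟩ := (hν'S s hs (hSV s hs hsK)).1 ((unit_neg_iff _).2 ha)
      have htK : t * s * t⁻¹ ∈ K := K.mul_mem (K.mul_mem ht hsK) (K.inv_mem ht)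
      have hts := h.conj s hs t
      obtain ⟨u', hu', hu'1⟩ := (hν'S _ hts (hSV _ hts htK)).1 ((unit_neg_iff _).2 hb)
      have h4 : u' * (t * s * t⁻¹) * u'⁻¹ = (u' * t) * s * (u' * t)⁻¹ := by group
      rw [h4] at hu'1
      have h5 := hsig s hs hsK u (hVK hu) (u' * t) (K.mul_mem (hVK hu') ht) hu1 hu'1
      have h6 : t ∈ V := by
        have h7 := V.mul_mem (V.mul_mem (V.inv_mem hu') (hWV h5)) hu
        have h8 : u'⁻¹ * (u' * t * u⁻¹) * u = t := by group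
        rwa [h8] at h7
      obtain ⟨h7, h8⟩ := mem_kerS.1 h6
      exact hx₀ h8
    have hconjV : ∀ s ∈ S, s ∈ K → t * s * t⁻¹ ∈ V := fun s hs hsK =>
      hSV _ (h.conj s hs t) (K.mul_mem (K.mul_mem ht hsK) (K.inv_mem ht))
    -- the two descriptions of the signs
    have hsign : ∀ s ∈ S, s ∈ K → ((∃ u ∈ K, ext W l (u * s * u⁻¹) = -1) ↔
        (ext V ν' s = -1 ∨ ext V ν' (t * s * t⁻¹) = -1)) := by
      intro s hs hsK
      constructor
      · rintro ⟨u, hu, hu1⟩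
        by_cases huV : u ∈ V
        · left
          exact (unit_neg_iff (hSV s hs hsK)).1 ((hν'S s hs (hSV s hs hsK)).2 ⟨u, huV, hu1⟩)
        · right
          have h4 : u * t⁻¹ ∈ V := by
            refine mem_kerS.2 ⟨K.mul_mem hu (K.inv_mem ht), ?_⟩
            have h5 : η ⟨u, hu⟩ = -1 := by
              refine (hηval _).resolve_left fun h6 => huV (mem_kerS.2 ⟨hu, h6⟩)
            have h6 : η ⟨t, ht⟩ = -1 := (hηval _).resolve_left hx₀
            have h7 : (⟨u * t⁻¹, K.mul_mem hu (K.inv_mem ht)⟩ : K) = ⟨u, hu⟩ * ⟨t, ht⟩⁻¹ := rfl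
            rw [h7, map_mul, map_inv, h5, h6, mul_inv_cancel]
          refine (unit_neg_iff (hconjV s hs hsK)).1 ((hν'S _ (h.conj s hs t) _).2
            ⟨u * t⁻¹, h4, ?_⟩)
          have h5 : u * t⁻¹ * (t * s * t⁻¹) * (u * t⁻¹)⁻¹ = u * s * u⁻¹ := by group
          rw [h5]
          exact hu1
      · rintro (ha | hb)
        · obtain ⟨u, hu, hu1⟩ := (hν'S s hs (hSV s hs hsK)).1 ((unit_neg_iff _).2 ha)
          exact ⟨u, hVK hu, hu1⟩
        · obtain ⟨u, hu, hu1⟩ := (hν'S _ (h.conj s hs t) (hconjV s hs hsK)).1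
            ((unit_neg_iff _).2 hb)
          refine ⟨u * t, K.mul_mem (hVK hu) ht, ?_⟩
          have h5 : u * t * s * (u * t)⁻¹ = u * (t * s * t⁻¹) * u⁻¹ := by group
          rw [h5]
          exact hu1
    by_cases hcase : ∃ s ∈ S, s ∈ K ∧ ext V ν' s = -1
    · obtain ⟨s₁, hs₁, hs₁K, hs₁n⟩ := hcase
      obtain ⟨μ, hμ2, hμv, l', hl'2, hl'v, hind⟩ := hKL Q K η hη2 ν' hν'2 t ht hx₀
        ⟨s₁, hSV s₁ hs₁ hs₁K, fun h4 => hnot s₁ hs₁ hs₁K ⟨hs₁n, by rw [← h4]; exact hs₁n⟩⟩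
      have hμS : ∀ s ∈ S, s ∈ K → ext K μ s = ext V ν' s * ext V ν' (t * s * t⁻¹) :=
        fun s hs hsK => hμv s (hSV s hs hsK)
      refine ⟨μ, hμ2, ?_, ?_⟩
      · intro s hs hsK
        rw [hsign s hs hsK, unit_neg_iff, hμS s hs hsK]
        rcases ext_cases hν'2 (hSV s hs hsK) with ha | ha <;>
          rcases ext_cases hν'2 (hconjV s hs hsK) with hb | hb
        · rw [ha, hb]
          constructor
          · intro h4
            exfalso
            rw [one_mul] at h4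
            exact c_neg_ne h4.symm
          · rintro (h4 | h4) <;> exact (c_neg_ne h4.symm).elim
        · rw [ha, hb]
          simp
        · rw [ha, hb]
          simp
        · exact (hnot s hs hsK ⟨ha, hb⟩).elim
      · have h4 : ψV * ν' = resS K η ψ * ν' := rfl
        have hμ1 : μ ⟨s₁, hs₁K⟩ ≠ 1 := by
          intro h5
          have h6 := (unit_one_iff hs₁K).1 h5
          rw [hμS s₁ hs₁ hs₁K, hs₁n] at h6
          rcases ext_cases hν'2 (hconjV s₁ hs₁ hs₁K) with hb | hb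
          · rw [hb] at h6
            rw [mul_one] at h6
            exact c_neg_ne h6
          · exact hnot s₁ hs₁ hs₁K ⟨hs₁n, hb⟩
        have h5 := congrArg Y (hind ψ)
        rw [h4, h5, h.pos hl'2 ?_, h.split hμ2 hμ1]
        intro s hs hsV'
        have hsK : s ∈ K := kerS_le K μ hsV'
        rw [unit_one_iff, hl'v s (hSV s hs hsK) hsV']
        obtain ⟨h6, h7⟩ := mem_kerS.1 hsV'
        have h8 := (unit_one_iff hsK).1 h7
        rw [hμS s hs hsK] at h8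
        rcases ext_cases hν'2 (hSV s hs hsK) with ha | ha
        · exact ha
        · exfalso
          rcases ext_cases hν'2 (hconjV s hs hsK) with hb | hb
          · rw [ha, hb, mul_one] at h8
            exact c_neg_ne h8
          · exact hnot s hs hsK ⟨ha, hb⟩
    · push Not at hcase
      have h10 : (1 : K →* ℂˣ) ^ 2 = 1 := MonoidHom.ext fun _ => one_pow (M := ℂˣ) 2
      refine ⟨1, h10, ?_, ?_⟩
      · intro s hs hsK
        rw [hsign s hs hsK]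
        constructor
        · intro h4
          exact (neg_one_ne h4.symm).elim
        · rintro (h4 | h4)
          · exact (hcase s hs hsK h4).elim
          · exact (hcase _ (h.conj s hs t) (hVK (hconjV s hs hsK)) h4).elim
      · have h11 : ψ * 1 = ψ := MonoidHom.ext fun x => mul_one (ψ x)
        rw [h.pos hν'2 ?_, hYV, h11, pow_two]
        intro s hs hsV
        rw [unit_one_iff]
        exact (ext_cases hν'2 hsV).resolve_right (hcase s hs (hVK hsV))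

theorem t_FIN (hKL : S_KLEIN) : S_FIN := by
  intro Q _ _ A _ Y S hY hQ hG hsq hconj ε₀ hε hεS K ψ hj l hl hsig
  classical
  have h : Ctx Y S ε₀ := ⟨hY, hQ, hG, hsq, hconj, hε, hεS⟩
  have hj0 := Nat.find_spec hj
  have hjm : ∀ m < Nat.find hj, ¬ ψ ^ 2 ^ m = 1 := fun m hm => Nat.find_min hj hm
  generalize Nat.find hj = j at hj0 hjm
  rcases Nat.lt_or_ge j 2 with hj2 | hj2
  · have h1 : ψ ^ 2 = 1 := by
      interval_cases j
      · have h2 : ψ = 1 := by simpa using hj0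
        have h10 : (1 : K →* ℂˣ) ^ 2 = 1 := MonoidHom.ext fun _ => one_pow (M := ℂˣ) 2
        rw [h2]
        exact h10
      · simpa using hj0
    rw [hQ K ψ h1, one_pow]
  · obtain ⟨n, rfl⟩ : ∃ n, j = n + 1 + 1 := ⟨j - 2, by omega⟩
    obtain ⟨ν, hν2, hνS, hνY⟩ := chain hKL h (n + 1) K ψ hj0 (Or.inr (hjm (n + 1) (by omega)))
      (kerS K (ψ ^ 2)) (kerS_le _ _) (fun x hx => by
        rw [mem_kerS]
        exact ⟨fun ⟨_, h2⟩ => h2, fun h2 => ⟨hx, h2⟩⟩) l hl (by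
        intro s hs hsK u hu u' hu' h1 h2
        obtain ⟨u₀, hu₀, h3⟩ := hsig s hs hsK
        have h4 := (h3 u hu).1 h1
        have h5 := (h3 u' hu').1 h2
        have h6 := (kerS K (ψ ^ 2)).mul_mem h5 ((kerS K (ψ ^ 2)).inv_mem h4)
        have h7 : u' * u₀⁻¹ * (u * u₀⁻¹)⁻¹ = u' * u⁻¹ := by group
        rwa [h7] at h6)
    have hνn : ∀ s ∈ S, ∀ hs : s ∈ K, ν ⟨s, hs⟩ = -1 := by
      intro s hs hsK
      obtain ⟨u₀, hu₀, h3⟩ := hsig s hs hsK
      rw [hνS s hs hsK]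
      exact ⟨u₀, hu₀, (h3 u₀ hu₀).2 (by rw [mul_inv_cancel]; exact (kerS K (ψ ^ 2)).one_mem)⟩
    have h1 := h.neg hν2 hνn ψ
    have h2 : Y (ind (kerS K (ψ ^ 2)) (ψ.comp (Subgroup.inclusion (kerS_le K (ψ ^ 2))) * l)) = 1 := by
      refine hQ _ _ ?_
      refine MonoidHom.ext fun x => ?_
      obtain ⟨h3, h4⟩ := mem_kerS.1 x.2
      have h5 : l x ^ 2 = 1 := congrArg (fun f : kerS K (ψ ^ 2) →* ℂˣ => f x) hl
      have h6 : (ψ.comp (Subgroup.inclusion (kerS_le K (ψ ^ 2))) x) ^ 2 = 1 := h4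
      rw [MonoidHom.pow_apply, MonoidHom.mul_apply, mul_pow, h5, h6, one_mul]
      rfl
    rw [h2] at hνY
    have h3 := lin_pow Y hY hQ hG hsq ε₀ hε hεS (n + 1) K ψ hj0
    have h4 : Y (ind K ψ) ^ (2 ^ (n + 1) - 1) = Y (ind K ψ) := by
      have h5 : Y (ind K ψ) ^ (2 ^ (n + 1) - 1) * (Y (ind K ψ) * Y (ind K (ψ * ν))) =
          Y (ind K ψ) := by
        rw [mul_left_comm, ← hνY, mul_one]
      rwa [h1, mul_one] at h5
    have h5 : 2 ^ (n + 1) = (2 ^ (n + 1) - 1) + 1 := by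
      have : 1 ≤ 2 ^ (n + 1) := Nat.one_le_two_pow
      omega
    rw [h5, pow_succ, h4, ← pow_two] at h3
    exact h3

end Pool.Agent.Y951.SQ
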