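import Pool.Agent.Y951.SQ.Core
import Pool.Agent.Y951.SQ.Defs
import Pool.Agent.Y951.SQ.Alpha
import Pool.Agent.Y38.SQ.KLEIN
import Pool.Agent.Y691.ST.BeiDefs

/-!
# Stark's conjecture up to sign
-/

set_option autoImplicit false

namespace Pool.Agent.Y951.SQ

open Pool.Agent.Y144.DL Pool.Agent.Y691.ST Pool.Agent.Y951.SE

/-- **The conjectures up to sign.** -/
theorem main {d : (GalQ → ℂ) → ℂˣ} {D : (U : Subgroup GalQ) → (U → ℂ) → ℂˣ} (hd : IsDef' d)
    (hind : ∀ (U : Subgroup GalQ) (θ : U → ℂ), IsOpen (U : Set GalQ) → IsArtin θ →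
      D U θ = d (indC U θ)) {m : ℕ} (h : HoldsLinear TotallyComplex (fun U θ => D U θ ^ m)) :
    HoldsPower D (2 * m) ∧ HoldsNoQuartic D m ∧ HoldsNotFour D m := by
  obtain ⟨h1, h2⟩ := core' t_ALPHA Pool.Agent.Y38.SQ.t_KLEIN hd hind h
  refine ⟨h1, fun U n ρ hρ hk => h2 U n ρ hρ (Or.inl hk), fun U χ hU hχ h4 => ?_⟩
  let ρ : U →* Matrix (Fin 1) (Fin 1) ℂ :=
    { toFun := fun u => fun _ _ => (χ u : ℂ)
      map_one' := by
        ext i j
        rw [Subsingleton.elim i j]
        simp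
      map_mul' := fun x y => by
        ext i j
        simp [Matrix.mul_apply] }
  have hρ1 : ∀ u, ρ u = 1 ↔ χ u = 1 := by
    intro u
    constructor
    · intro h5
      have h6 : (χ u : ℂ) = (1 : Matrix (Fin 1) (Fin 1) ℂ) 0 0 := congrFun (congrFun h5 0) 0
      apply Units.ext
      rw [h6]
      simp
    · intro h5
      ext i j
      rw [Subsingleton.elim i j]
      show (χ u : ℂ) = _
      rw [h5]
      simp
  have hker : (ρ.ker : Set U) = {u : U | χ u = 1} := by
    ext u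
    exact hρ1 u
  have h5 : character ρ = lin χ := by
    funext u
    show (ρ u).trace = (χ u : ℂ)
    simp [Matrix.trace, ρ]
  rw [← h5]
  refine h2 U 1 ρ ⟨hU, ?_⟩ (Or.inr fun u hu => h4 ?_)
  · rw [hker]
    exact hχ
  · refine dvd_trans (by simpa using hu) (orderOf_dvd_of_pow_eq_one ?_)
    rw [← map_pow, hρ1, map_pow]
    have h6 := pow_orderOf_eq_one χ
    exact congrArg (fun f : U →* ℂˣ => f u) h6

/-- the properties of the invariants of the equivariant conjecture of Beilinson -/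
lemma isDef'_of_borel {d : (GalQ → ℂ) → ℂˣ} {D : (U : Subgroup GalQ) → (U → ℂ) → ℂˣ}
    (hD : IsBorelDefect d D) : IsDef' d := by
  refine ⟨hD.add, fun U hU => ?_⟩
  have h1 : IsOpen {u : U | (1 : U →* ℂˣ) u = 1} := by
    have h2 : {u : U | (1 : U →* ℂˣ) u = 1} = Set.univ := by
      ext u
      simp
    rw [h2]
    exact isOpen_univ
  have h3 : (lin (1 : U →* ℂˣ)) = 1 := by
    funext u
    simp [lin]
  have h4 := hD.ind U _ hU (isArtin_lin h1)
  rw [indC_lin] at h4
  rw [← h4, h3]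
  exact hD.one U hU

end Pool.Agent.Y951.SQ
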