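import Pool.Agent.Y691.ST.Conj

/-!
# Weak approximation for the real places: statements
-/

set_option autoImplicit false

namespace Pool.Agent.Y951.SQ

open Pool.Agent.Y691.ST

/-- ALPHA: an open subgroup is the stabilizer of an algebraic number -/
def S_ALPHA : Prop := ∀ W : Subgroup GalQ, IsOpen (W : Set GalQ) →
  ∃ α : Qbar, ∀ g : GalQ, g ∈ W ↔ g α = α

/-- POLY: a rational polynomial with given signs at finitely many real numbers -/
def S_POLY : Prop := ∀ (F : Finset ℝ) (N : Set ℝ), ∃ p : Polynomial ℚ,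
  ∀ x ∈ F, (x ∈ N → Polynomial.aeval x p < 0) ∧ (x ∉ N → 0 < Polynomial.aeval x p)

/-- WA: weak approximation for the real places -/
def S_WA : Prop := ∀ (c : GalQ) (φ : Qbar →+* ℂ), (∀ x, φ (c x) = (starRingEnd ℂ) (φ x)) →
  ∀ W : Subgroup GalQ, IsOpen (W : Set GalQ) → ∀ T : Set GalQ, (∀ w ∈ W, ∀ g ∈ T, w * g ∈ T) →
  ∃ l : W →* ℂˣ, (∀ w, l w ^ 2 = 1) ∧ IsOpen {w | l w = 1} ∧
    ∀ (g : GalQ) (h : g * c * g⁻¹ ∈ W), l ⟨g * c * g⁻¹, h⟩ = -1 ↔ g ∈ T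

end Pool.Agent.Y951.SQ
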