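import Pool.Agent.Y951.SE.Main
import Pool.Agent.Y951.SQ.StmWA

/-!
# Stark's conjecture up to sign: statements of the parts
-/

set_option autoImplicit false

namespace Pool.Agent.Y951.SQ

open Pool.Agent.Y144.DL Pool.Agent.Y691.ST Pool.Agent.Y951.SE

/-- KLEIN: the three subgroups of the dihedral group of order 8 -/
def S_KLEIN : Prop := ∀ (Q : Type) [Group Q] [Finite Q] (K : Subgroup Q) (η : K →* ℂˣ), η ^ 2 = 1 →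
  ∀ l : kerS K η →* ℂˣ, l ^ 2 = 1 → ∀ (t : Q) (ht : t ∈ K), η ⟨t, ht⟩ ≠ 1 →
  (∃ s ∈ kerS K η, ext (kerS K η) l s ≠ ext (kerS K η) l (t * s * t⁻¹)) →
  ∃ μ : K →* ℂˣ, μ ^ 2 = 1 ∧
    (∀ v ∈ kerS K η, ext K μ v = ext (kerS K η) l v * ext (kerS K η) l (t * v * t⁻¹)) ∧
    ∃ l' : kerS K μ →* ℂˣ, l' ^ 2 = 1 ∧
      (∀ x, x ∈ kerS K η → x ∈ kerS K μ → ext (kerS K μ) l' x = ext (kerS K η) l x) ∧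
      ∀ χ : K →* ℂˣ, ind (kerS K η) (resS K η χ * l) = ind (kerS K μ) (resS K μ χ * l')

/-- FIN: the finite theorem -/
def S_FIN : Prop := ∀ (Q : Type) [Group Q] [Finite Q] (A : Type) [CommGroup A] (Y : (Q → ℂ) → A)
  (S : Set Q), (∀ θ θ', IsChar θ → IsChar θ' → Y (θ + θ') = Y θ * Y θ') →
  (∀ (K : Subgroup Q) (χ : K →* ℂˣ), χ ^ 2 = 1 → Y (ind K χ) = 1) →
  (∀ (K : Subgroup Q) (χ : K →* ℂˣ), (∀ s ∈ S, s ∉ K) → Y (ind K χ) = 1) →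
  (∀ s ∈ S, s * s = 1) → (∀ s ∈ S, ∀ g, g * s * g⁻¹ ∈ S) →
  ∀ ε₀ : Q →* ℂˣ, (∀ g, ε₀ g ^ 2 = 1) → (∀ s ∈ S, ε₀ s = -1) →
  ∀ (K : Subgroup Q) (ψ : K →* ℂˣ), (∃ j : ℕ, ψ ^ 2 ^ j = 1) →
  ∀ l : kerS K (ψ ^ 2) →* ℂˣ, l ^ 2 = 1 →
  (∀ s ∈ S, s ∈ K → ∃ u₀ ∈ K, ∀ u ∈ K,
    ext (kerS K (ψ ^ 2)) l (u * s * u⁻¹) = -1 ↔ u * u₀⁻¹ ∈ kerS K (ψ ^ 2)) →
  Y (ind K ψ) ^ 2 = 1

/-- PROF: from finite groups to profinite groups -/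
def S_PROF : Prop := S_FIN → ∀ (G : Type) [Group G] [TopologicalSpace G] [IsTopologicalGroup G]
  [CompactSpace G] [TotallyDisconnectedSpace G] [T2Space G] (c : G), c * c = 1 →
  ∀ d : (G → ℂ) → ℂˣ, IsDef' d →
  (∀ (U : Subgroup G) (χ : U →* ℂˣ), IsOpenLinear U χ → (∀ g, g * c * g⁻¹ ∉ U) →
    d (indF U χ) = 1) →
  ∀ e₀ : G →* ℂˣ, IsOpen (e₀.ker : Set G) → (∀ g, e₀ g ^ 2 = 1) → e₀ c = -1 →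
  (∀ W : Subgroup G, IsOpen (W : Set G) → ∀ T : Set G, (∀ w ∈ W, ∀ g ∈ T, w * g ∈ T) →
    ∃ l : W →* ℂˣ, (∀ w, l w ^ 2 = 1) ∧ IsOpen {w | l w = 1} ∧
      ∀ (g : G) (h : g * c * g⁻¹ ∈ W), l ⟨g * c * g⁻¹, h⟩ = -1 ↔ g ∈ T) →
  ∀ (U : Subgroup G) (χ : U →* ℂˣ), IsOpenLinear U χ → (∃ j : ℕ, χ ^ 2 ^ j = 1) →
    d (indF U χ) ^ 2 = 1

end Pool.Agent.Y951.SQ
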